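import Pool.Agent.Q258.ThreshParity

/-!
# The classes `C_t` of `(-1,1,t)`-threshold graphs are pairwise incomparable

For all distinct reals `t, t' > 1` there is a finite graph which is a `(-1,1,t)`-threshold graph
but not a `(-1,1,t')`-threshold graph. In particular no two of the classes coincide.
-/

namespace Pool.Agent.Results.MP_86beeb_co.ClassesIncomparable

/-- `G` is a `(θ 0, …, θ (k-1))`-threshold graph: there is a rank function `r` such that distinct
vertices `v, w` are adjacent exactly when the number of indices `i` with `θ i ≤ r v + r w` is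
odd. -/
def IsThresholdGraph {k : ℕ} (θ : Fin k → ℝ) {V : Type*} (G : SimpleGraph V) : Prop :=
  ∃ r : V → ℝ, ∀ v w : V, v ≠ w →
    (G.Adj v w ↔ Odd (Finset.univ.filter (fun i : Fin k => θ i ≤ r v + r w)).card)

/-- `G ∈ C_t`: `G` is a `(-1,1,t)`-threshold graph. -/
def InC (t : ℝ) {V : Type*} (G : SimpleGraph V) : Prop := IsThresholdGraph ![-1, 1, t] G

/-- For distinct `t, t' > 1` there is a finite graph in `C_t` which is not in `C_{t'}`; exchanging
`t` and `t'` there is also one in `C_{t'}` which is not in `C_t`. -/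
theorem result : ∀ t t' : ℝ, 1 < t → 1 < t' → t ≠ t' →
    (∃ (n : ℕ) (G : SimpleGraph (Fin n)), InC t G ∧ ¬ InC t' G) ∧
    (∃ (n : ℕ) (G : SimpleGraph (Fin n)), InC t' G ∧ ¬ InC t G) := by
  have key : ∀ t : ℝ, 1 < t → ∀ (n : ℕ) (G : SimpleGraph (Fin n)),
      InC t G ↔ Pool.Agent.Q258.Thresh.InC t G := by
    intro t ht n G
    unfold InC IsThresholdGraph Pool.Agent.Q258.Thresh.InC
    simp only [Pool.Agent.Q258.Thresh.odd_iff ht]
  intro t t' ht ht' hne
  constructor
  · obtain ⟨n, G, h1, h2⟩ := Pool.Agent.Q258.Thresh.main ht ht' hne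
    exact ⟨n, G, (key t ht n G).2 h1, fun h => h2 ((key t' ht' n G).1 h)⟩
  · obtain ⟨n, G, h1, h2⟩ := Pool.Agent.Q258.Thresh.main ht' ht hne.symm
    exact ⟨n, G, (key t' ht' n G).2 h1, fun h => h2 ((key t ht n G).1 h)⟩

end Pool.Agent.Results.MP_86beeb_co.ClassesIncomparable
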